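import Mathlib
import Pool.Agent.Helper50.CT.Goals

set_option autoImplicit false

open Set Metric

namespace Pool.Agent.Helper15.CT

theorem goalGH : Pool.Agent.Helper50.CT.StmtGH := by
  intro T _ _ _ l δ _ hl hgh
  obtain ⟨Φ, Ψ, hΦ, hΨ, hH⟩ := GromovHausdorff.ghDist_eq_hausdorffDist T (Icc (0 : ℝ) l)
  rw [hH] at hgh
  have hcT : IsCompact (range Φ) := isCompact_range hΦ.continuous
  have hcI : IsCompact (range Ψ) := isCompact_range hΨ.continuous
  have hfin : hausdorffEDist (range Φ) (range Ψ) ≠ ⊤ :=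
    hausdorffEDist_ne_top_of_nonempty_of_bounded (range_nonempty Φ) (range_nonempty Ψ)
      hcT.isBounded hcI.isBounded
  have h1 : ∀ x : T, ∃ t : Icc (0 : ℝ) l, dist (Φ x) (Ψ t) < δ := by
    intro x
    obtain ⟨y, ⟨t, rfl⟩, hy⟩ := exists_dist_lt_of_hausdorffDist_lt (mem_range_self x) hgh hfin
    exact ⟨t, hy⟩
  have h2 : ∀ t : Icc (0 : ℝ) l, ∃ x : T, dist (Φ x) (Ψ t) < δ := by
    intro t
    obtain ⟨y, ⟨x, rfl⟩, hy⟩ := exists_dist_lt_of_hausdorffDist_lt' (mem_range_self t) hgh hfin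
    exact ⟨x, hy⟩
  choose F hF using h1
  have hδ : 0 < δ := lt_of_le_of_lt dist_nonneg (hF (Classical.arbitrary T))
  have hdI : ∀ s t : Icc (0 : ℝ) l, dist (Ψ s) (Ψ t) = |(s : ℝ) - t| := by
    intro s t
    rw [hΨ.dist_eq, Subtype.dist_eq, Real.dist_eq]
  have ha : ∀ x y : T, |(F x : ℝ) - F y| ≤ dist x y + 2 * δ := by
    intro x y
    have e1 := dist_triangle4 (Ψ (F x)) (Φ x) (Φ y) (Ψ (F y))
    rw [hdI, hΦ.dist_eq, dist_comm (Ψ (F x)) (Φ x)] at e1
    linarith [hF x, hF y]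
  have hb : ∀ x y : T, dist x y ≤ |(F x : ℝ) - F y| + 2 * δ := by
    intro x y
    have e1 := dist_triangle4 (Φ x) (Ψ (F x)) (Ψ (F y)) (Φ y)
    rw [hdI, hΦ.dist_eq, dist_comm (Ψ (F y)) (Φ y)] at e1
    linarith [hF x, hF y]
  have hc : ∀ t : Icc (0 : ℝ) l, ∃ x : T, |(F x : ℝ) - t| ≤ 2 * δ := by
    intro t
    obtain ⟨x, hx⟩ := h2 t
    refine ⟨x, ?_⟩
    have e1 := dist_triangle (Ψ (F x)) (Φ x) (Ψ t)
    rw [hdI, dist_comm (Ψ (F x)) (Φ x)] at e1
    linarith [hF x]
  obtain ⟨p, hp⟩ := hc ⟨0, ⟨le_rfl, hl.le⟩⟩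
  obtain ⟨r, hr⟩ := hc ⟨l, ⟨hl.le, le_rfl⟩⟩
  obtain ⟨q, -, hq⟩ := isCompact_univ.exists_isMaxOn (univ_nonempty (α := T))
    (continuous_const.dist continuous_id : Continuous fun x : T => dist p x).continuousOn
  have hq' : ∀ x, dist p x ≤ dist p q := fun x => hq (mem_univ x)
  simp only [sub_zero] at hp
  have hF0 : ∀ x, (0 : ℝ) ≤ F x := fun x => (F x).2.1
  have hFl : ∀ x, (F x : ℝ) ≤ l := fun x => (F x).2.2
  have hp' : (F p : ℝ) ≤ 2 * δ := by rwa [abs_of_nonneg (hF0 p)] at hp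
  have hr' : l - 2 * δ ≤ F r := by linarith [(abs_le.mp hr).1]
  -- distance to `p`
  have hlow : ∀ x, (F x : ℝ) - F p - 2 * δ ≤ dist p x := by
    intro x
    have := ha p x
    have e2 := neg_abs_le ((F p : ℝ) - F x)
    linarith
  have hupp : ∀ x, dist p x ≤ (F x : ℝ) - F p + 6 * δ := by
    intro x
    have e1 := hb p x
    have e2 : |(F p : ℝ) - F x| ≤ (F x : ℝ) - F p + 4 * δ := by
      rw [abs_le]
      constructor
      · linarith [hF0 x]
      · linarith [hF0 x]
    linarith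
  have hpp : ∀ x y, dist x y ≤ |dist p x - dist p y| + 10 * δ := by
    intro x y
    have e1 := hb x y
    have e2 : |(F x : ℝ) - F y| ≤ |dist p x - dist p y| + 8 * δ := by
      rw [abs_le]
      have f1 := le_abs_self (dist p x - dist p y)
      have f2 := neg_abs_le (dist p x - dist p y)
      have a1 := hlow x
      have a2 := hupp x
      have a3 := hlow y
      have a4 := hupp y
      constructor <;> linarith
    linarith
  have hD : l - 6 * δ ≤ dist p q := by
    have := hlow r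
    linarith [hq' r]
  have hqu : ∀ x, dist q x ≤ dist p q - dist p x + 10 * δ := by
    intro x
    have e1 := hpp q x
    rw [abs_of_nonneg (sub_nonneg.mpr (hq' x))] at e1
    exact e1
  have hql : ∀ x, dist p q - dist p x ≤ dist q x := by
    intro x
    have := dist_triangle p x q
    rw [dist_comm x q] at this
    linarith
  refine ⟨p, q, fun x y => ?_, fun x y => ?_, fun x => ?_, hD⟩
  · linarith [hpp x y]
  · have e1 := hpp x y
    have e2 : |dist p x - dist p y| ≤ |dist q x - dist q y| + 10 * δ := by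
      rw [abs_le]
      have f1 := le_abs_self (dist q x - dist q y)
      have f2 := neg_abs_le (dist q x - dist q y)
      have a1 := hqu x
      have a2 := hql x
      have a3 := hqu y
      have a4 := hql y
      constructor <;> linarith
    linarith
  · linarith [hqu x]

end Pool.Agent.Helper15.CT
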